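import Pool.Agent.helper10.OM.SpecG

set_option autoImplicit false

namespace Pool.Agent.OM

open Finset Real Pool.Agent.AT Pool.Agent.helper85.FC

theorem GMA (h1 : GPG_stmt) (h2 : GSY_stmt) : GMA_stmt := by
  classical
  intro hQ ε hε
  obtain ⟨η, hη, h⟩ := h1 hQ ε hε
  refine ⟨η, hη, fun F hF hQF => ?_⟩
  obtain ⟨S, hS, hgood, hcard⟩ := h F hF hQF
  have hlt : ∀ p ∈ S, p.1 ∈ F ∧ p.2 ∈ F ∧ p.2 < p.1 := by
    intro p hp
    have := hS hp
    unfold FF at this
    rw [Finset.mem_filter, Finset.mem_product] at this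
    exact ⟨this.1.1, this.1.2, this.2⟩
  have hinj : Set.InjOn Prod.swap (S : Set (ℕ × ℕ)) := Prod.swap_injective.injOn
  have hdis : Disjoint S (S.image Prod.swap) := by
    rw [Finset.disjoint_left]
    intro p hp hp'
    obtain ⟨p', hp'1, hp'2⟩ := Finset.mem_image.mp hp'
    have a1 := (hlt p hp).2.2
    have a2 := (hlt p' hp'1).2.2
    rw [← hp'2] at a1
    simp only [Prod.fst_swap, Prod.snd_swap] at a1
    omega
  have hsub : S ∪ S.image Prod.swap ⊆ (F ×ˢ F).filter (fun p => GQ ε p.1 p.2) := by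
    intro p hp
    rw [Finset.mem_filter, Finset.mem_product]
    rcases Finset.mem_union.mp hp with hp | hp
    · refine ⟨⟨(hlt p hp).1, (hlt p hp).2.1⟩, ?_⟩
      have := hgood p hp
      unfold GQ at this ⊢
      rw [Nat.gcd_comm p.1 p.2]
      exact h2 _ _ _ this
    · obtain ⟨p', hp'1, hp'2⟩ := Finset.mem_image.mp hp
      rw [← hp'2]
      exact ⟨⟨(hlt p' hp'1).2.1, (hlt p' hp'1).1⟩, hgood p' hp'1⟩
  have hc := Finset.card_le_card hsub
  rw [Finset.card_union_of_disjoint hdis, Finset.card_image_of_injOn hinj] at hc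
  have hc' : ((#S : ℕ) : ℝ) + #S ≤ (#((F ×ˢ F).filter (fun p => GQ ε p.1 p.2)) : ℕ) := by
    exact_mod_cast hc
  have e : (1 / 3 - ε) * (#F : ℝ) ^ 2 = (1 / 6 - ε / 2) * (#F : ℝ) ^ 2 + (1 / 6 - ε / 2) * (#F : ℝ) ^ 2 := by ring
  rw [e]
  linarith

end Pool.Agent.OM
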