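import Pool.Agent.helper10.OM.Spec

/-! SMO: smoothing and the Fourier transform. -/

set_option autoImplicit false

namespace Pool.Agent.OM

open Finset Real Pool.Agent.AT Pool.Agent.helper85.FC

theorem SMO_ft (h1 : EEB_stmt) (h2 : SHF_stmt) (M T R Y : ℕ) (hT : 1 ≤ T) (hR : M * T ≤ R)
    (f : ℤ → ℝ) (hf : ∀ x, x ∉ XX 0 Y → f x = 0) (α : ℝ) :
    ft (XX R Y) (fun x => f x - sm M T f x) α =
      (∑ τ ∈ range T, (1 - ee (-(α * (M * τ))))) / T * ft (XX R Y) f α := by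
  obtain ⟨-, hadd, -, -, -⟩ := h1
  have hT0 : (T : ℂ) ≠ 0 := by
    have : T ≠ 0 := by omega
    exact_mod_cast this
  have hτ : ∀ τ ∈ range T, ∑ x ∈ XX R Y, (f (x + M * τ) : ℂ) * ee (α * x) =
      ee (-(α * (M * τ))) * ft (XX R Y) f α := by
    intro τ hτ
    rw [mem_range] at hτ
    have h3 := h2 (E := ℂ) 0 R Y ((M : ℤ) * τ) (by
      have h4 : (0 : ℤ) ≤ (M : ℤ) * τ := by positivity
      rw [abs_of_nonneg h4]
      have h5 : M * τ ≤ R := (Nat.mul_le_mul le_rfl hτ.le).trans hR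
      push_cast
      rw [zero_add]
      exact_mod_cast h5) (fun x => (f x : ℂ) * ee (α * x)) (by
      intro x hx
      rw [hf x hx]
      simp)
    unfold ft
    rw [← h3, mul_sum]
    refine sum_congr rfl fun x _ => ?_
    have h6 : ee (α * x) = ee (-(α * (M * τ))) * ee (α * ((x + (M : ℤ) * τ : ℤ) : ℝ)) := by
      rw [← hadd]
      congr 1
      push_cast
      ring
    rw [h6]
    ring
  have h4 : ft (XX R Y) (fun x => f x - sm M T f x) α = ft (XX R Y) f α -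
      (∑ τ ∈ range T, ∑ x ∈ XX R Y, (f (x + M * τ) : ℂ) * ee (α * x)) / T := by
    unfold ft sm
    rw [sum_comm, sum_div, ← sum_sub_distrib]
    refine sum_congr rfl fun x _ => ?_
    push_cast
    rw [← sum_mul]
    ring
  rw [h4, sum_congr rfl hτ, ← sum_mul, sum_sub_distrib, sum_const, card_range, nsmul_eq_mul,
    mul_one]
  field_simp

theorem SMO_bd (h1 : EEB_stmt) (h2 : SHF_stmt) (M T R Y : ℕ) (hT : 1 ≤ T) (hR : M * T ≤ R)
    (f : ℤ → ℝ) (hf : ∀ x, x ∉ XX 0 Y → f x = 0) (α : ℝ) (c : ℝ) (hc0 : 0 ≤ c)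
    (hc : ∀ τ ∈ range T, ‖1 - ee (-(α * (M * τ)))‖ ≤ c) :
    ‖ft (XX R Y) (fun x => f x - sm M T f x) α‖ ^ 2 ≤ c ^ 2 * ‖ft (XX R Y) f α‖ ^ 2 := by
  rw [SMO_ft h1 h2 M T R Y hT hR f hf α, norm_mul, mul_pow]
  have hT0 : (0 : ℝ) < T := by
    have : 0 < T := by omega
    exact_mod_cast this
  have h3 : ‖(∑ τ ∈ range T, (1 - ee (-(α * (M * τ))))) / (T : ℂ)‖ ≤ c := by
    rw [norm_div, Complex.norm_natCast, div_le_iff₀ hT0]
    refine (norm_sum_le_of_le _ hc).trans (le_of_eq ?_)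
    rw [sum_const, card_range, nsmul_eq_mul]
    ring
  have h4 : ‖(∑ τ ∈ range T, (1 - ee (-(α * (M * τ))))) / (T : ℂ)‖ ^ 2 ≤ c ^ 2 :=
    pow_le_pow_left₀ (norm_nonneg _) h3 2
  exact mul_le_mul_of_nonneg_right h4 (by positivity)

theorem SMO (h1 : EEB_stmt) (h2 : SHF_stmt) : SMO_stmt := by
  intro M T R Y hT hR f hf α
  have hE := h1
  obtain ⟨hn, hadd, hint, hsmall, -⟩ := hE
  constructor
  · have h3 := SMO_bd h1 h2 M T R Y hT hR f hf α 2 (by norm_num) (by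
      intro τ _
      refine (norm_sub_le _ _).trans ?_
      rw [norm_one, hn]
      norm_num)
    refine h3.trans (le_of_eq ?_)
    norm_num
  · intro ρ hρ hnear
    obtain ⟨n, hn'⟩ := hnear
    refine SMO_bd h1 h2 M T R Y hT hR f hf α (2 * π * T * ρ) (by positivity) ?_
    intro τ hτ
    rw [mem_range] at hτ
    have h4 : ee (-(α * (M * τ))) = ee (-(τ * (M * α - n))) := by
      have h5 : -(α * (M * τ)) = -((τ : ℝ) * (M * α - n)) + ((-((τ : ℤ) * n) : ℤ) : ℝ) := by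
        push_cast
        ring
      rw [h5, hadd, hint, mul_one]
    rw [h4]
    refine (hsmall _).trans ?_
    rw [abs_neg, abs_mul, Nat.abs_cast]
    have h6 : (τ : ℝ) * |(M : ℝ) * α - n| ≤ T * ρ := by
      have h7 : (τ : ℝ) ≤ T := by exact_mod_cast hτ.le
      exact mul_le_mul h7 hn' (abs_nonneg _) (by positivity)
    have h8 : 2 * π * ((τ : ℝ) * |(M : ℝ) * α - n|) ≤ 2 * π * (T * ρ) :=
      mul_le_mul_of_nonneg_left h6 (by positivity)
    linarith

end Pool.Agent.OM
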